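import Pool.Agent.N41.RM.II

/-!
# The Ichino-Ikeda formula as a regularised Euler product of the local periods

Let `τ`, `σ` be tempered cuspidal representations of `SO(V_n)`, `SO(V_{n+1})` over the number field `F`, and
`S` a finite set of finite primes outside which everything is unramified.  Then the local period at
`v ∉ S` is `P_v^♮ = Δ_v 𝓛_v`, `𝓛_v = L_v(1/2, τ × σ) / (L_v(1, τ, Ad) L_v(1, σ, Ad))`, and the formula
predicts that the global period `P(φ, f)` is `2^{-β}` times the product of all `P_v^♮`, which diverges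
or at least is not known to converge: convergence of the partial products `∏_{N v ≤ x} 𝓛_v` would be
much stronger than the Riemann hypothesis for `L(s, τ × σ)` (Goldfeld, Kuo and Murty, Conrad).  So the
formula is stated with the completed L-functions.

We show that the product over `v ∉ S` always converges after a regularisation which uses the local
parameters only.  Write `log 𝓛_v = ∑_k λ_v(k)`, where `λ_v(k)` is the contribution of the `k`-th powers of
the parameters (`coef` below), and for `γ > π/2`, `T > 0` put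

`V_γ(T) = ∑_{v ∉ S} ∑_{k ≥ 1} λ_v(k) exp(i γ k log N(v) / T) / Γ(1 + k log N(v) / T)`,

an absolutely convergent series.  Then, without any hypothesis on the zeros,

`exp V_γ(T) = L^S(1/2, τ × σ) / (L^S(1, τ, Ad) L^S(1, σ, Ad)) + O(1/T)`,

and if `r` is the order of `L^S(s, τ × σ)` at `s = 1/2`, then `T^r exp V_γ(T)` has a nonzero limit, given
by the `r`-th derivative.  Consequently the Ichino-Ikeda identity for `φ`, `f` holds if and only if

`P(φ, f) = lim_{T → ∞} 2^{-β} ∏_{v ∈ S or v | ∞} P_v^♮(φ_v, f_v) · ∏_{v ∉ S} Δ_v · exp V_γ(T)`: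

all L-functions, and the normalising factors at the bad and at the archimedean places, disappear, and
only local matrix coefficients remain.

Here one of `V_n`, `V_{n+1}` has odd dimension `2 m + 1`, with dual group `Sp(2m)`, the other one has even
dimension `2 k`, `k = m` or `k = m + 1`, with dual group `O(2k)`; `a v` and `b v` are the eigenvalues of the
Satake parameters in the standard representations of dimension `2k` and `2m`.  The adjoint
representations are the exterior square for `O(2k)` and the symmetric square for `Sp(2m)`; the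
determinant of the standard parameter of the even orthogonal group is the discriminant character.
-/

set_option autoImplicit false
set_option linter.unusedSectionVars false

namespace Pool.Agent.Results.MP_f4c338_nt.RegularisedPeriods

open NumberField IsDedekindDomain Filter Topology Asymptotics

section defs

variable {F : Type} [Field F] [NumberField F] {A B N : ℕ}

/-- The unramified parameters of a tempered representation in the self-dual standard representation of
the dual group: outside `S` they have absolute value one and are closed under inversion. -/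
structure IsSatake (S : Finset (HeightOneSpectrum (𝓞 F)))
    (a : HeightOneSpectrum (𝓞 F) → Fin N → ℂ) : Prop where
  unit : ∀ v ∉ S, ∀ j, ‖a v j‖ = 1
  dual : ∀ v ∉ S, ∃ e : Equiv.Perm (Fin N), ∀ j, a v (e j) = (a v j)⁻¹

/-- The local factor of `L(s, τ × σ)`: `∏_{i,j} (1 - a_i b_j N(v)^{-s})⁻¹`. -/
noncomputable def tensorFactor (a : HeightOneSpectrum (𝓞 F) → Fin A → ℂ)
    (b : HeightOneSpectrum (𝓞 F) → Fin B → ℂ) (v : HeightOneSpectrum (𝓞 F)) (s : ℂ) : ℂ :=
  ∏ p : Fin A × Fin B, (1 - a v p.1 * b v p.2 * (Ideal.absNorm v.asIdeal : ℂ) ^ (-s))⁻¹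

/-- The local factor of the adjoint L-function for the even-dimensional space (exterior square):
`∏_{i<j} (1 - a_i a_j N(v)^{-s})⁻¹`. -/
noncomputable def adjointEven (a : HeightOneSpectrum (𝓞 F) → Fin A → ℂ)
    (v : HeightOneSpectrum (𝓞 F)) (s : ℂ) : ℂ :=
  ∏ p : Fin A × Fin A with p.1 < p.2,
    (1 - a v p.1 * a v p.2 * (Ideal.absNorm v.asIdeal : ℂ) ^ (-s))⁻¹

/-- The local factor of the adjoint L-function for the odd-dimensional space (symmetric square):
`∏_{i≤j} (1 - b_i b_j N(v)^{-s})⁻¹`. -/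
noncomputable def adjointOdd (b : HeightOneSpectrum (𝓞 F) → Fin B → ℂ)
    (v : HeightOneSpectrum (𝓞 F)) (s : ℂ) : ℂ :=
  ∏ p : Fin B × Fin B with p.1 ≤ p.2,
    (1 - b v p.1 * b v p.2 * (Ideal.absNorm v.asIdeal : ℂ) ^ (-s))⁻¹

/-- `𝓛_v = L_v(1/2, τ × σ) / (L_v(1, τ, Ad) L_v(1, σ, Ad))`. -/
noncomputable def calL (a : HeightOneSpectrum (𝓞 F) → Fin A → ℂ)
    (b : HeightOneSpectrum (𝓞 F) → Fin B → ℂ) (v : HeightOneSpectrum (𝓞 F)) : ℂ :=
  tensorFactor a b v (1 / 2) / (adjointEven a v 1 * adjointOdd b v 1)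

/-- The local factor `Δ_v` of the motive of `SO(V_{n+1})`: `ζ_v(2) ζ_v(4) ⋯ ζ_v(2m)` if
`dim V_{n+1} = 2m + 1` (`k = m`), with the additional factor `L_v(m + 1, χ)`, `χ_v = ∏_j a_j` the
discriminant character, if `dim V_{n+1} = 2m + 2` (`k = m + 1`). -/
noncomputable def Delta (m k : ℕ) (a : HeightOneSpectrum (𝓞 F) → Fin A → ℂ)
    (v : HeightOneSpectrum (𝓞 F)) : ℂ :=
  (∏ i ∈ Finset.range m, (1 - ((Ideal.absNorm v.asIdeal : ℂ) ^ (2 * (i + 1)))⁻¹)⁻¹) *
    if k = m then 1 else (1 - (∏ j, a v j) * ((Ideal.absNorm v.asIdeal : ℂ) ^ (m + 1))⁻¹)⁻¹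

/-- `L` is a continuation, along the real half line from `s₀`, of the Euler product of `E v`, `v ∉ S`. -/
def IsContinuation (S : Finset (HeightOneSpectrum (𝓞 F)))
    (E : HeightOneSpectrum (𝓞 F) → ℂ → ℂ) (s₀ : ℝ) (L : ℂ → ℂ) : Prop :=
  (∀ x : ℝ, s₀ ≤ x → MeromorphicAt L (x : ℂ)) ∧
    ∀ s : ℂ, 1 < s.re → L s = ∏' v : {v : HeightOneSpectrum (𝓞 F) // v ∉ S}, E v s

/-- The power sums. -/
noncomputable def psum (a : HeightOneSpectrum (𝓞 F) → Fin A → ℂ) (v : HeightOneSpectrum (𝓞 F))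
    (k : ℕ) : ℂ := ∑ j, a v j ^ k

/-- The part `λ_v(k)` of `log 𝓛_v` which belongs to the `k`-th powers of the parameters. -/
noncomputable def coef (a : HeightOneSpectrum (𝓞 F) → Fin A → ℂ)
    (b : HeightOneSpectrum (𝓞 F) → Fin B → ℂ) (v : HeightOneSpectrum (𝓞 F)) (k : ℕ) : ℂ :=
  (psum a v k * psum b v k / ((Real.sqrt (Ideal.absNorm v.asIdeal) : ℝ) : ℂ) ^ k -
    ((psum a v k ^ 2 - psum a v (2 * k)) / 2 + (psum b v k ^ 2 + psum b v (2 * k)) / 2) /
      (Ideal.absNorm v.asIdeal : ℂ) ^ k) / k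

/-- The terms of `V_γ(T)`; `x = (v, k - 1)`. -/
noncomputable def term (S : Finset (HeightOneSpectrum (𝓞 F)))
    (a : HeightOneSpectrum (𝓞 F) → Fin A → ℂ) (b : HeightOneSpectrum (𝓞 F) → Fin B → ℂ)
    (γ T : ℝ) (x : {v : HeightOneSpectrum (𝓞 F) // v ∉ S} × ℕ) : ℂ :=
  coef a b x.1 (x.2 + 1) *
    (Complex.exp ((γ * ((x.2 + 1) * Real.log (Ideal.absNorm x.1.1.asIdeal)) / T : ℝ) * Complex.I) /
      (Real.Gamma (1 + (x.2 + 1) * Real.log (Ideal.absNorm x.1.1.asIdeal) / T) : ℂ))

/-- `V_γ(T)`. -/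
noncomputable def rotSum (S : Finset (HeightOneSpectrum (𝓞 F)))
    (a : HeightOneSpectrum (𝓞 F) → Fin A → ℂ) (b : HeightOneSpectrum (𝓞 F) → Fin B → ℂ)
    (γ T : ℝ) : ℂ := ∑' x, term S a b γ T x

/-- `Λ_γ = ∫_0^∞ (e^{-t} - e^{iγt} / Γ(1 + t)) dt / t`. -/
noncomputable def Lam (γ : ℝ) : ℂ := ∫ t in Set.Ioi (0 : ℝ),
  (Complex.exp (-(t : ℂ)) - Complex.exp ((γ * t : ℝ) * Complex.I) * ((Real.Gamma (1 + t))⁻¹ : ℝ)) / t

/-- The Ichino-Ikeda identity `P = 2^{-β} Δ 𝓛 ∏_v P_v`, where `D v`, `Λ v`, `R v` are `Δ_v`, `𝓛_v` and the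
local period `P_v^♮` at the places `v` in `S` and the archimedean ones (`ι`), `DS`, `LS` are the products
of `Δ_v` and the value of `𝓛` outside `S`, and `P_v = P_v^♮ / (Δ_v 𝓛_v)`, which is `1` outside `S`. -/
def Identity {ι : Type} [Fintype ι] (D Λ R : ι → ℂ) (β : ℤ) (DS LS P : ℂ) : Prop :=
  P = 2 ^ (-β) * (DS * ∏ v, D v) * (LS * ∏ v, Λ v) * ∏ v, R v / (D v * Λ v)

end defs

section bridge

open Pool.Agent.N41.RM Pool.Agent.N41.RM.II

variable {F : Type} [Field F] [NumberField F] {A B N : ℕ} {S : Finset (HeightOneSpectrum (𝓞 F))}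
  {a : HeightOneSpectrum (𝓞 F) → Fin A → ℂ} {b : HeightOneSpectrum (𝓞 F) → Fin B → ℂ}

/-- the norms -/
noncomputable def qS (S : Finset (HeightOneSpectrum (𝓞 F)))
    (v : {v : HeightOneSpectrum (𝓞 F) // v ∉ S}) : ℝ := (Ideal.absNorm v.1.asIdeal : ℝ)

theorem nq (S : Finset (HeightOneSpectrum (𝓞 F))) : NQ (qS S) where
  two_le := fun v => Pool.Agent.R409.RA.two_le v.1
  sum := fun σ hσ => by
    have h := Pool.Agent.R409.RA.summable_nm (K := F) hσ
    exact h.comp_injective (i := fun v : {v : HeightOneSpectrum (𝓞 F) // v ∉ S} => v.1)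
      Subtype.val_injective

theorem sd (ha : IsSatake S a) (v : {v : HeightOneSpectrum (𝓞 F) // v ∉ S}) : SD (a v.1) :=
  ⟨ha.unit v.1 v.2, ha.dual v.1 v.2⟩

theorem T_eq (v : {v : HeightOneSpectrum (𝓞 F) // v ∉ S}) (s : ℂ) :
    TF (qS S) (fun v => a v.1) (fun v => b v.1) v s = tensorFactor a b v.1 s := by
  unfold TF tensorFactor qS
  simp only [Complex.ofReal_natCast]

theorem A_eq (v : {v : HeightOneSpectrum (𝓞 F) // v ∉ S}) (s : ℂ) :
    AF (qS S) (fun v => a v.1) v s = adjointEven a v.1 s := by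
  unfold AF adjointEven qS
  simp only [Complex.ofReal_natCast]

theorem S_eq (v : {v : HeightOneSpectrum (𝓞 F) // v ∉ S}) (s : ℂ) :
    SF (qS S) (fun v => b v.1) v s = adjointOdd b v.1 s := by
  unfold SF adjointOdd qS
  simp only [Complex.ofReal_natCast]

theorem coef_eq (ha : IsSatake S a) (hb : IsSatake S b)
    (x : {v : HeightOneSpectrum (𝓞 F) // v ∉ S} × ℕ) :
    coef a b x.1 (x.2 + 1) = (cf (qS S) (fun v => a v.1) (fun v => b v.1) x : ℂ) := by
  rw [cf_coe (nq S) (sd ha) (sd hb)]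
  have h0 : (0 : ℝ) ≤ qS S x.1 := by linarith [(nq S).two_le x.1]
  have h1 : ((qS S x.1 ^ (-(1 / 2) : ℝ) : ℝ) : ℂ) =
      ((Real.sqrt (Ideal.absNorm x.1.1.asIdeal) : ℝ) : ℂ)⁻¹ := by
    rw [Real.rpow_neg h0, ← Real.sqrt_eq_rpow, Complex.ofReal_inv]
    rfl
  have h2 : (((qS S x.1)⁻¹ : ℝ) : ℂ) = (Ideal.absNorm x.1.1.asIdeal : ℂ)⁻¹ := by
    unfold qS
    rw [Complex.ofReal_inv, Complex.ofReal_natCast]
  rw [h1, h2]
  unfold coef psum
  rw [inv_pow, inv_pow, div_eq_mul_inv _ (((Real.sqrt _ : ℝ) : ℂ) ^ _),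
    div_eq_mul_inv _ ((Ideal.absNorm x.1.1.asIdeal : ℂ) ^ _)]
  push_cast
  rfl

theorem term_eq (ha : IsSatake S a) (hb : IsSatake S b) (γ T : ℝ)
    (x : {v : HeightOneSpectrum (𝓞 F) // v ∉ S} × ℕ) :
    term S a b γ T x = (cf (qS S) (fun v => a v.1) (fun v => b v.1) x : ℂ) *
      Complex.exp ((γ * (fq (qS S) x / T) : ℝ) * Complex.I) *
      (Pool.Agent.W189.ML.om (fq (qS S) x / T) : ℂ) := by
  unfold term
  rw [coef_eq ha hb, mul_assoc]
  unfold Pool.Agent.W189.ML.om
  have h1 : ((x.2 + 1) * Real.log (Ideal.absNorm x.1.1.asIdeal) : ℝ) = fq (qS S) x := rfl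
  rw [h1, mul_div_assoc γ, Complex.ofReal_inv, div_eq_mul_inv (Complex.exp _)]

theorem sum_eq (ha : IsSatake S a) (hb : IsSatake S b) (γ T : ℝ) :
    rotSum S a b γ T = Pool.Agent.W187.UR.cmean (fq (qS S))
      (cf (qS S) (fun v => a v.1) (fun v => b v.1)) γ T := by
  unfold rotSum Pool.Agent.W187.UR.cmean
  exact tsum_congr fun x => term_eq ha hb γ T x

end bridge

/-- **The regularised product of the local periods.**  Let `S` be a finite set of finite primes of `F`,
`a`, `b` the Satake parameters outside `S` of the two tempered representations, on the even-dimensional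
space (dual group `O(2k)`) and on the odd-dimensional one (dual group `Sp(2m)`), `m ≥ 1`, and `L`, `A`, `B`
continuations of `L^S(s, τ × σ)` along `[1/2, ∞)`, analytic at `1/2`, and of the two partial adjoint
L-functions along `[1, ∞)`, analytic and nonzero at `1`.  Let `γ > π/2`.  Then

* for `v ∉ S` the series `∑_k λ_v(k)` converges and is a logarithm of `𝓛_v`, and the product of the
  `Δ_v`, `v ∉ S`, converges;
* the series `V_γ(T)` converges absolutely, and `exp V_γ(T) = L(1/2) / (A(1) B(1)) + O(1/T)`;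
* if `r` is the order of `L` at `1/2` and `L^*` the leading coefficient there, then
  `T^r exp V_γ(T) = e^{rΛ_γ} L^* / (A(1) B(1)) + O(1/T)`;
* for all values of the local data at the bad and at the archimedean places the Ichino-Ikeda identity
  holds for the global period `P` if and only if
  `2^{-β} ∏_{bad v} P_v^♮ · ∏_{v ∉ S} Δ_v · exp V_γ(T) → P` as `T → ∞`. -/
theorem result (F : Type) [Field F] [NumberField F] (S : Finset (HeightOneSpectrum (𝓞 F)))
    (m k : ℕ) (hm : 1 ≤ m)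
    (a : HeightOneSpectrum (𝓞 F) → Fin (2 * k) → ℂ)
    (b : HeightOneSpectrum (𝓞 F) → Fin (2 * m) → ℂ) (ha : IsSatake S a) (hb : IsSatake S b)
    (L A B : ℂ → ℂ) (hL : IsContinuation S (tensorFactor a b) (1 / 2) L)
    (hA : IsContinuation S (adjointEven a) 1 A) (hB : IsContinuation S (adjointOdd b) 1 B)
    (hL' : AnalyticAt ℂ L (1 / 2)) (hA' : AnalyticAt ℂ A 1 ∧ A 1 ≠ 0)
    (hB' : AnalyticAt ℂ B 1 ∧ B 1 ≠ 0) (γ : ℝ) (hγ : Real.pi / 2 < γ) :
    (∀ v ∉ S, Summable (fun j => coef a b v (j + 1)) ∧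
      Complex.exp (∑' j, coef a b v (j + 1)) = calL a b v) ∧
    Multipliable (fun v : {v : HeightOneSpectrum (𝓞 F) // v ∉ S} => Delta m k a v) ∧
    (∀ T : ℝ, 0 < T → Summable fun x => ‖term S a b γ T x‖) ∧
    (fun T : ℝ => Complex.exp (rotSum S a b γ T) - L (1 / 2) / (A 1 * B 1))
      =O[atTop] (fun T : ℝ => 1 / T) ∧
    (∃ r : ℕ, analyticOrderAt L (1 / 2) = r ∧ meromorphicTrailingCoeffAt L (1 / 2) ≠ 0 ∧
      (fun T : ℝ => Complex.exp (rotSum S a b γ T) * (T : ℂ) ^ r -
        Complex.exp (r * Lam γ) * (meromorphicTrailingCoeffAt L (1 / 2) / (A 1 * B 1)))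
        =O[atTop] (fun T : ℝ => 1 / T)) ∧
    ∀ (ι : Type) [Fintype ι] (D Λ R : ι → ℂ) (β : ℤ) (P : ℂ), (∀ v, D v ≠ 0) →
      (∀ v, Λ v ≠ 0) →
      (Identity D Λ R β (∏' v : {v : HeightOneSpectrum (𝓞 F) // v ∉ S}, Delta m k a v)
        (L (1 / 2) / (A 1 * B 1)) P ↔
      Tendsto (fun T : ℝ => 2 ^ (-β) * (∏ v, R v) *
        (∏' v : {v : HeightOneSpectrum (𝓞 F) // v ∉ S}, Delta m k a v) *
        Complex.exp (rotSum S a b γ T)) atTop (𝓝 P)) := by
  have hq := nq S
  have hsa := sd ha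
  have hsb := sd hb
  have hfs := Pool.Agent.N41.RM.II.tot_fs hq hsa hsb
  have : Countable (HeightOneSpectrum (𝓞 F)) := inferInstance
  have hLam : Lam γ = Pool.Agent.W187.UR.Lam γ := rfl
  obtain ⟨r, h1, h2, h3, h4⟩ := Pool.Agent.N41.RM.II.tot_law hq hsa hsb (L := L) (A₀ := A)
    (B₀ := B) hL.1 (fun s hs => by
      rw [hL.2 s hs]
      exact tprod_congr fun v => (T_eq v s).symm) hA.1 (fun s hs => by
      rw [hA.2 s hs]
      exact tprod_congr fun v => (A_eq v s).symm) hB.1 (fun s hs => by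
      rw [hB.2 s hs]
      exact tprod_congr fun v => (S_eq v s).symm) hL' hA'.1 hA'.2 hB'.1 hB'.2 hγ
  have hlim : (fun T : ℝ => Complex.exp (rotSum S a b γ T) - L (1 / 2) / (A 1 * B 1))
      =O[atTop] (fun T : ℝ => 1 / T) := by
    refine h4.congr_left fun T => ?_
    rw [sum_eq ha hb]
  have hlim2 : Tendsto (fun T : ℝ => Complex.exp (rotSum S a b γ T)) atTop
      (𝓝 (L (1 / 2) / (A 1 * B 1))) := by
    have h5 : Tendsto (fun T : ℝ => 1 / T) atTop (𝓝 0) := by
      simpa [one_div] using tendsto_inv_atTop_zero (𝕜 := ℝ)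
    have h6 := hlim.trans_tendsto h5
    have h7 := h6.add_const (L (1 / 2) / (A 1 * B 1))
    simpa using h7
  refine ⟨fun v hv => ?_, ?_, fun T hT => ?_, hlim, ⟨r, h1, h2, ?_⟩, ?_⟩
  · have h5 := hfs.fac ⟨v, hv⟩ 0 (by simp)
    have h6 : (fun n : ℕ => (Pool.Agent.N41.RM.II.cf (qS S) (fun v => a v.1) (fun v => b v.1)
        (⟨v, hv⟩, n) : ℂ) * Complex.exp (-(0 * Pool.Agent.N41.RM.fq (qS S) (⟨v, hv⟩, n)))) =
        fun j => coef a b v (j + 1) := by
      funext n
      rw [zero_mul, neg_zero, Complex.exp_zero, mul_one]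
      exact (coef_eq ha hb (⟨v, hv⟩, n)).symm
    rw [h6] at h5
    refine ⟨h5.1, ?_⟩
    rw [h5.2, add_zero, add_zero, T_eq, A_eq, S_eq, ← div_eq_mul_inv]
    rfl
  · unfold Delta
    refine Multipliable.mul ?_ ?_
    · refine multipliable_prod fun i _ => ?_
      have h5 := Pool.Agent.N41.RM.II.one_fac hq (fun _ => 1) (fun _ => by simp) (2 * i + 1)
        (by omega)
      refine h5.congr fun v => ?_
      unfold qS
      rw [Complex.ofReal_one, one_mul, Complex.ofReal_natCast,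
        show 2 * (i + 1) = 2 * i + 1 + 1 by ring]
    · split_ifs
      · exact multipliable_one
      · have h5 := Pool.Agent.N41.RM.II.one_fac hq (fun v => (∏ j, a v.1 j).re) (fun v => by
          refine (Complex.abs_re_le_norm _).trans ?_
          rw [(hsa v).prod.2]) m hm
        refine h5.congr fun v => ?_
        have h6 : (((∏ j, a v.1 j).re : ℝ) : ℂ) = ∏ j, a v.1 j := by
          apply Complex.ext
          · simp
          · rw [(hsa v).prod.1, Complex.ofReal_im]
        unfold qS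
        rw [h6, Complex.ofReal_natCast]
  · have h5 := Pool.Agent.N41.RM.cmean_summable (lam := Pool.Agent.N41.RM.fq (qS S))
      (c := Pool.Agent.N41.RM.II.cf (qS S) (fun v => a v.1) (fun v => b v.1)) (A := 1 / 2)
      hfs.nn hfs.sum 0 γ hT
    refine h5.congr fun x => ?_
    rw [term_eq ha hb, zero_mul, neg_zero, Real.exp_zero, mul_one]
  · rw [hLam]
    refine h3.congr_left fun T => ?_
    rw [sum_eq ha hb]
  · intro ι _ D Λ R β P hD hΛ
    have h5 : (∏ v, D v) ≠ 0 := Finset.prod_ne_zero_iff.2 fun v _ => hD v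
    have h6 : (∏ v, Λ v) ≠ 0 := Finset.prod_ne_zero_iff.2 fun v _ => hΛ v
    set DS := ∏' v : {v : HeightOneSpectrum (𝓞 F) // v ∉ S}, Delta m k a v with hDS
    have h7 : (2 : ℂ) ^ (-β) * (DS * ∏ v, D v) * (L (1 / 2) / (A 1 * B 1) * ∏ v, Λ v) *
        ∏ v, R v / (D v * Λ v) = 2 ^ (-β) * (∏ v, R v) * DS * (L (1 / 2) / (A 1 * B 1)) := by
      rw [Finset.prod_div_distrib, Finset.prod_mul_distrib]
      field_simp
    have h8 : Tendsto (fun T : ℝ => 2 ^ (-β) * (∏ v, R v) * DS *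
        Complex.exp (rotSum S a b γ T)) atTop
        (𝓝 (2 ^ (-β) * (∏ v, R v) * DS * (L (1 / 2) / (A 1 * B 1)))) :=
      hlim2.const_mul _
    unfold Identity
    rw [h7]
    constructor
    · rintro rfl
      exact h8
    · intro h9
      exact tendsto_nhds_unique h9 h8

end Pool.Agent.Results.MP_f4c338_nt.RegularisedPeriods
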